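import Pool.Agent.U171.ToParity.Core

/-!
The exact identity for the truncations `E M`, and the reduction modulo `2` of the series `T_o`.
-/

namespace Pool.Agent.U171.ToParity

open PowerSeries Finset

theorem poch_eq (n j : ℕ) : poch (X ^ (2 * (n + 1))) j = P (n + j) * Pi n := by
  induction j with
  | zero => rw [poch_zero, add_zero, P_mul]
  | succ j ih =>
    have h : poch (X ^ (2 * (n + 1))) (j + 1) =
        poch (X ^ (2 * (n + 1))) j * (1 - X ^ (2 * (n + 1)) * X ^ (2 * j)) := by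
      simp [poch, prod_range_succ]
    rw [h, ih, ← add_assoc, P_succ]
    ring

/-- the sum `h'_n` -/
noncomputable def H (n : ℕ) : R :=
  ∑ j ∈ range (n + 1), (-1) ^ j * X ^ ((n - j) * (n - j + 1) + 2 * j) * P (n + j) *
    Pi (n - j) * Pi j

theorem H_eq (n : ℕ) : H n = X ^ (3 * n * (n + 1)) := by
  have h : H n = F n (X ^ (2 * (n + 1))) := by
    unfold H F
    apply sum_congr rfl
    intro j hj
    rw [mem_range] at hj
    rw [poch_eq, B_mul n j (n - j) (by omega)]
    have := P_mul n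
    linear_combination (-((-1) ^ j * X ^ ((n - j) * (n - j + 1) + 2 * j) * P (n + j) *
      Pi (n - j) * Pi j)) * this
  rw [h, F_eq]
  ring

/-- the inner sums -/
noncomputable def D (n : ℕ) : R :=
  ∑ j ∈ range (n + 1), (-1) ^ j * X ^ (2 * j + 1 + (n - j) * (n - j + 1)) * P (n + j + 1) *
    Pi (n - j) * Pi j * u (2 * j + 1)

theorem D_succ (n : ℕ) : D (n + 1) = X ^ (2 * n + 3) * D n + X * (1 + X ^ (2 * n + 3)) * H (n + 1) := by
  have h1 : ∑ j ∈ range (n + 1), (-1) ^ j * X ^ (2 * j + 1 + (n + 1 - j) * (n + 1 - j + 1)) *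
      P (n + 1 + j + 1) * Pi (n + 1 - j) * Pi j * u (2 * j + 1) = X ^ (2 * n + 3) * D n +
      X * (1 + X ^ (2 * n + 3)) * ∑ j ∈ range (n + 1), (-1) ^ j *
        X ^ ((n + 1 - j) * (n + 1 - j + 1) + 2 * j) * P (n + 1 + j) * Pi (n + 1 - j) * Pi j := by
    rw [D, mul_sum, mul_sum, ← sum_add_distrib]
    apply sum_congr rfl
    intro j hj
    rw [mem_range] at hj
    obtain ⟨s, rfl⟩ : ∃ s, n = j + s := ⟨n - j, by omega⟩
    have e1 : j + s + 1 - j = s + 1 := by omega
    have e2 : j + s - j = s := by omega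
    have e3 : j + s + 1 + j = j + s + j + 1 := by omega
    rw [e1, e2, e3, P_succ (j + s + j + 1), Pi_succ s]
    have h := u_mul (2 * j)
    linear_combination ((-1) ^ j * X ^ ((s + 1) * (s + 2) + 2 * j + 1) * P (j + s + j + 1) *
      Pi (s + 1) * Pi j * (1 + X ^ (2 * (j + s) + 3))) * h
  have h2 : D (n + 1) = ∑ j ∈ range (n + 1), (-1) ^ j *
      X ^ (2 * j + 1 + (n + 1 - j) * (n + 1 - j + 1)) *
      P (n + 1 + j + 1) * Pi (n + 1 - j) * Pi j * u (2 * j + 1) +
      (-1) ^ (n + 1) * X ^ (2 * n + 3) * P (2 * n + 2 + 1) * Pi 0 * Pi (n + 1) *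
        u (2 * (n + 1) + 1) := by
    rw [D, sum_range_succ]
    have e1 : n + 1 - (n + 1) = 0 := by omega
    have e2 : n + 1 + (n + 1) + 1 = 2 * n + 2 + 1 := by ring
    have e3 : 2 * (n + 1) + 1 + 0 * (0 + 1) = 2 * n + 3 := by ring
    rw [e1, e2, e3]
  have h3 : H (n + 1) = ∑ j ∈ range (n + 1), (-1) ^ j *
        X ^ ((n + 1 - j) * (n + 1 - j + 1) + 2 * j) * P (n + 1 + j) * Pi (n + 1 - j) * Pi j +
      (-1) ^ (n + 1) * X ^ (2 * n + 2) * P (2 * n + 2) * Pi 0 * Pi (n + 1) := by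
    rw [H, sum_range_succ]
    have e1 : n + 1 - (n + 1) = 0 := by omega
    have e2 : n + 1 + (n + 1) = 2 * n + 2 := by ring
    have e3 : 0 * (0 + 1) + 2 * (n + 1) = 2 * n + 2 := by ring
    rw [e1, e2, e3]
  rw [h2, h3, h1, P_succ]
  have h := u_mul (2 * (n + 1))
  linear_combination ((-1) ^ (n + 1) * X ^ (2 * n + 3) * P (2 * n + 2) *
      Pi 0 * Pi (n + 1) * (1 + X ^ (2 * n + 3))) * h

/-- partial sums of the triangular theta series -/
noncomputable def S (n : ℕ) : R := ∑ k ∈ range (2 * n + 2), X ^ (k * (k + 1) / 2)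

theorem D_eq (n : ℕ) : D n = X ^ ((n + 1) ^ 2) * S n := by
  induction n with
  | zero =>
    have h1 : P 1 = 1 - X ^ 2 := by
      have := P_succ 0
      rw [P_zero] at this
      simpa using this
    have h2 := u_mul 0
    simp only [D, S, zero_add, pow_zero, mul_zero, Pi_zero, h1, sum_range_succ,
      sum_range_zero, Nat.sub_zero]
    norm_num
    simp only [zero_add, pow_one] at h2
    linear_combination (X * (1 + X)) * h2
  | succ n ih =>
    have h : S (n + 1) = S n + X ^ ((n + 1) * (2 * n + 3)) + X ^ ((2 * n + 3) * (n + 2)) := by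
      unfold S
      have e : 2 * (n + 1) + 2 = 2 * n + 2 + 1 + 1 := by ring
      rw [e, sum_range_succ, sum_range_succ]
      have e1 : (2 * n + 2) * (2 * n + 2 + 1) / 2 = (n + 1) * (2 * n + 3) := by
        have : (2 * n + 2) * (2 * n + 2 + 1) = 2 * ((n + 1) * (2 * n + 3)) := by ring
        rw [this]
        exact Nat.mul_div_cancel_left _ (by norm_num)
      have e2 : (2 * n + 2 + 1) * (2 * n + 2 + 1 + 1) / 2 = (2 * n + 3) * (n + 2) := by
        have : (2 * n + 2 + 1) * (2 * n + 2 + 1 + 1) = 2 * ((2 * n + 3) * (n + 2)) := by ring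
        rw [this]
        exact Nat.mul_div_cancel_left _ (by norm_num)
      rw [e1, e2]
    rw [D_succ, ih, H_eq, h]
    ring

/-- the truncations of the signed series -/
noncomputable def E (M : ℕ) : R := ∑ j ∈ range M, (-1) ^ j * X ^ (2 * j + 1) * Q j * u (2 * j + 1)

theorem E_eq (M : ℕ) : ∃ r : R, E M = ∑ N ∈ range M, D N + X ^ (2 * M + 1) * r := by
  choose r hr using L_odd
  refine ⟨-∑ j ∈ range M, (-1) ^ j * X ^ ((M - j) * (M - j - 1)) * Pi j * u (2 * j + 1) *
    r j (M - j), ?_⟩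
  have hD : ∑ N ∈ range M, D N = ∑ j ∈ range M,
      (-1) ^ j * X ^ (2 * j + 1) * Pi j * u (2 * j + 1) * L (2 * j + 1) (M - j) := by
    have := sum_range_diag_flip M (fun j s => (-1 : R) ^ j * X ^ (2 * j + 1) * Pi j *
      u (2 * j + 1) * (X ^ (s * (s + 1)) * P (2 * j + 1 + s) * Pi s))
    simp only [L, mul_sum]
    rw [← this]
    apply sum_congr rfl
    intro N _
    unfold D
    apply sum_congr rfl
    intro j hj
    rw [mem_range] at hj
    have e : 2 * j + 1 + (N - j) = N + j + 1 := by omega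
    rw [e]
    ring
  rw [hD, E, mul_neg, mul_sum, ← sub_eq_add_neg, ← sum_sub_distrib]
  apply sum_congr rfl
  intro j hj
  rw [mem_range] at hj
  obtain ⟨t, rfl⟩ : ∃ t, M = j + t + 1 := ⟨M - j - 1, by omega⟩
  have e1 : j + t + 1 - j = t + 1 := by omega
  rw [e1, hr j (t + 1), Nat.add_sub_cancel]
  have h := P_mul j
  linear_combination (-((-1) ^ j * X ^ (2 * j + 1) * Q j * u (2 * j + 1))) * h

theorem E_coeff (n : ℕ) : coeff (n + 1) (E (n + 1)) =
    ∑ N ∈ range (n + 1), ∑ k ∈ range (2 * N + 2),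
      if (N + 1) ^ 2 + k * (k + 1) / 2 = n + 1 then (1 : ℤ) else 0 := by
  obtain ⟨r, hr⟩ := E_eq (n + 1)
  rw [hr, map_add, coeff_X_pow_mul', if_neg (by omega), add_zero, map_sum]
  apply sum_congr rfl
  intro N _
  rw [D_eq, S, mul_sum, map_sum]
  apply sum_congr rfl
  intro k _
  rw [← pow_add, coeff_X_pow]
  simp only [eq_comm]

/-! ### the series `T_o` -/

/-- the `m`-th summand `q^{2m} (-q;q)_{2m} / (q;q²)_{m+1}` of `T_o` -/
noncomputable def summand (m : ℕ) : R :=
  X ^ (2 * m) * (∏ k ∈ range (2 * m), (1 + X ^ (k + 1))) *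
    invOfUnit (∏ k ∈ range (m + 1), (1 - X ^ (2 * k + 1))) 1

/-- `t_o(n)` -/
noncomputable def tO (n : ℕ) : ℤ := ∑ᶠ m : ℕ, coeff n (summand m)

theorem tO_eq (n : ℕ) : tO n = ∑ m ∈ range (n + 1), coeff n (summand m) := by
  unfold tO
  apply finsum_eq_sum_of_support_subset
  intro m hm
  rw [Function.mem_support] at hm
  by_contra hc
  apply hm
  rw [coe_range, Set.mem_Iio, not_lt] at hc
  rw [summand, mul_assoc, coeff_X_pow_mul', if_neg (by omega)]

/-- reduction modulo `2` -/
noncomputable def red : R →+* PowerSeries (ZMod 2) := PowerSeries.map (Int.castRingHom (ZMod 2))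

theorem red_one_add (k : ℕ) : red (1 + X ^ k) = red (1 - X ^ k) := by
  have h : red (1 + X ^ k) - red (1 - X ^ k) = 0 := by
    rw [← map_sub]
    have : (1 + X ^ k - (1 - X ^ k) : R) = 2 * X ^ k := by ring
    rw [this, map_mul]
    have h2 : red (2 : R) = 0 := by
      have : (2 : R) = C 2 := by simp
      rw [this, red, PowerSeries.map_C]
      have : (Int.castRingHom (ZMod 2)) 2 = 0 := by decide
      rw [this, map_zero]
    rw [h2, zero_mul]
  exact sub_eq_zero.mp h

theorem red_neg_one_pow (j : ℕ) : red ((-1) ^ j) = 1 := by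
  rw [map_pow]
  have h : red (-1 : R) = 1 := by
    have h1 := red_one_add 0
    simp only [pow_zero, sub_self, map_zero] at h1
    have h2 : red (1 + 1 : R) = red 1 + red 1 := map_add _ _ _
    rw [h1] at h2
    rw [map_neg, map_one]
    rw [map_one] at h2
    exact neg_eq_of_add_eq_zero_left h2.symm
  rw [h, one_pow]

/-- `(q;q²)_m` -/
noncomputable def O (m : ℕ) : R := ∏ k ∈ range m, (1 - X ^ (2 * k + 1))

theorem red_prod (m : ℕ) : red (∏ k ∈ range (2 * m), (1 + X ^ (k + 1))) =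
    red (O m) * red (Q m) := by
  induction m with
  | zero => simp [O, Q]
  | succ m ih =>
    have e : 2 * (m + 1) = 2 * m + 1 + 1 := by ring
    have h : O (m + 1) = O m * (1 - X ^ (2 * m + 1)) := by simp [O, prod_range_succ]
    rw [e, prod_range_succ, prod_range_succ, map_mul, map_mul, ih, red_one_add (2 * m + 1),
      Q_succ, h, map_mul, map_mul, e]
    ring

theorem O_inv (m : ℕ) : O m * invOfUnit (O (m + 1)) 1 = u (2 * m + 1) := by
  have h : O (m + 1) = O m * (1 - X ^ (2 * m + 1)) := by simp [O, prod_range_succ]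
  have h1 : O (m + 1) * invOfUnit (O (m + 1)) 1 = 1 := by
    apply mul_invOfUnit
    unfold O
    rw [map_prod, prod_eq_one]
    · simp
    · intro i _
      simp
  have h2 := u_mul (2 * m)
  rw [h] at h1 ⊢
  linear_combination (-(O m * invOfUnit (O m * (1 - X ^ (2 * m + 1))) 1)) * h2 +
    (u (2 * m + 1)) * h1

theorem red_summand (m : ℕ) : red (X * summand m) =
    red ((-1) ^ m * X ^ (2 * m + 1) * Q m * u (2 * m + 1)) := by
  unfold summand
  rw [show (∏ k ∈ range (m + 1), (1 - X ^ (2 * k + 1) : R)) = O (m + 1) from rfl, ← O_inv]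
  rw [map_mul, map_mul, map_mul, red_prod, map_mul, map_mul, map_mul, red_neg_one_pow, map_mul,
    map_pow, map_pow]
  ring

theorem tO_cast (n : ℕ) : ((tO n : ℤ) : ZMod 2) = ((coeff (n + 1) (E (n + 1)) : ℤ) : ZMod 2) := by
  have h1 : ∀ f : R, ∀ k : ℕ, ((coeff k f : ℤ) : ZMod 2) = coeff k (red f) := by
    intro f k
    simp [red, coeff_map]
  have h2 : tO n = coeff (n + 1) (∑ m ∈ range (n + 1), X * summand m) := by
    rw [tO_eq, map_sum]
    apply sum_congr rfl
    intro m _
    rw [coeff_succ_X_mul]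
  rw [h2, h1, h1, E]
  congr 1
  rw [map_sum, map_sum]
  apply sum_congr rfl
  intro m _
  exact red_summand m

theorem tO_mod (n : ℕ) : ((tO n : ℤ) : ZMod 2) =
    ∑ N ∈ range (n + 1), ∑ k ∈ range (2 * N + 2),
      if (N + 1) ^ 2 + k * (k + 1) / 2 = n + 1 then (1 : ZMod 2) else 0 := by
  rw [tO_cast, E_coeff]
  push_cast
  rfl

end Pool.Agent.U171.ToParity
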