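import Mathlib

/-!
The identity
`∑_{m ≥ 0} (-1)^m q^{2m+1} (-q²;q²)_m / (1 - q^{2m+1}) = ∑_{N ≥ 0} q^{(N+1)²} ∑_{k=0}^{2N+1} q^{k(k+1)/2}`
of formal power series with integral coefficients (in truncated form).
-/

namespace Pool.Agent.U171.ToParity

open PowerSeries Finset

/-- the ring of formal power series over the integers -/
abbrev R : Type := PowerSeries ℤ

/-- `(q²;q²)_m` -/
noncomputable def P (m : ℕ) : R := ∏ i ∈ range m, (1 - X ^ (2 * (i + 1)))

/-- `(-q²;q²)_m` -/
noncomputable def Q (m : ℕ) : R := ∏ i ∈ range m, (1 + X ^ (2 * (i + 1)))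

/-- the inverse of `1 - q^k`, `k > 0` -/
noncomputable def u (k : ℕ) : R := invOfUnit (1 - X ^ k) 1

/-- the inverse of `(q²;q²)_m` -/
noncomputable def Pi (m : ℕ) : R := invOfUnit (P m) 1

theorem u_mul (k : ℕ) : (1 - X ^ (k + 1)) * u (k + 1) = 1 := by
  unfold u
  apply mul_invOfUnit
  simp

theorem P_zero : P 0 = 1 := by simp [P]

theorem Q_zero : Q 0 = 1 := by simp [Q]

theorem P_succ (m : ℕ) : P (m + 1) = P m * (1 - X ^ (2 * (m + 1))) := by
  simp [P, prod_range_succ]

theorem Q_succ (m : ℕ) : Q (m + 1) = Q m * (1 + X ^ (2 * (m + 1))) := by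
  simp [Q, prod_range_succ]

theorem P_mul (m : ℕ) : P m * Pi m = 1 := by
  unfold Pi
  apply mul_invOfUnit
  unfold P
  rw [map_prod, prod_eq_one]
  · simp
  · intro i _
    simp

theorem Pi_zero : Pi 0 = 1 := by
  have := P_mul 0
  rwa [P_zero, one_mul] at this

theorem Pi_succ (m : ℕ) : Pi m = Pi (m + 1) * (1 - X ^ (2 * (m + 1))) := by
  have h1 := P_mul m
  have h2 := P_mul (m + 1)
  rw [P_succ] at h2
  calc Pi m = Pi m * (P m * (1 - X ^ (2 * (m + 1))) * Pi (m + 1)) := by rw [h2, mul_one]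
    _ = (P m * Pi m) * (Pi (m + 1) * (1 - X ^ (2 * (m + 1)))) := by ring
    _ = _ := by rw [h1, one_mul]

/-! ### the series in `s` -/

/-- `∑_{s < S} q^{s(s+1)} (q²;q²)_{J+s} / (q²;q²)_s` -/
noncomputable def L (J S : ℕ) : R := ∑ s ∈ range S, X ^ (s * (s + 1)) * P (J + s) * Pi s

theorem L_one (S : ℕ) : L 1 S = 1 - X ^ (S * (S + 1)) := by
  induction S with
  | zero => simp [L]
  | succ S ih =>
    have h : L 1 (S + 1) = L 1 S + X ^ (S * (S + 1)) * P (1 + S) * Pi S := by
      simp [L, sum_range_succ]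
    rw [h, ih, add_comm 1 S, P_succ]
    have h1 := P_mul S
    linear_combination (X ^ (S * (S + 1)) * (1 - X ^ (2 * (S + 1)))) * h1

theorem L_step (J S : ℕ) : L (J + 2) S = (1 - X ^ (2 * (J + 1))) * L J S -
    X ^ (2 * (J + 1)) * (1 - X ^ (2 * S)) * X ^ (S * (S + 1)) * P (J + S) * Pi S := by
  induction S with
  | zero => simp [L]
  | succ S ih =>
    have h : L (J + 2) (S + 1) = L (J + 2) S + X ^ (S * (S + 1)) * P (J + 2 + S) * Pi S := by
      simp [L, sum_range_succ]
    have h' : L J (S + 1) = L J S + X ^ (S * (S + 1)) * P (J + S) * Pi S := by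
      simp [L, sum_range_succ]
    rw [h, h', ih]
    have e1 : J + 2 + S = J + S + 1 + 1 := by ring
    have e2 : J + (S + 1) = J + S + 1 := by ring
    rw [e1, e2, P_succ (J + S + 1), P_succ (J + S), Pi_succ S]
    ring

/-- `L (2j+1) S` is `(q⁴;q⁴)_j` up to high order -/
theorem L_odd (j S : ℕ) : ∃ r : R, L (2 * j + 1) S = P j * Q j + X ^ (S * (S + 1)) * r := by
  induction j with
  | zero => exact ⟨-1, by rw [mul_zero, zero_add, L_one, P_zero, Q_zero]; ring⟩
  | succ j ih =>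
    obtain ⟨r, hr⟩ := ih
    have e : 2 * (j + 1) + 1 = 2 * j + 1 + 2 := by ring
    rw [e, L_step, hr, P_succ, Q_succ]
    refine ⟨(1 - X ^ (2 * (2 * j + 1 + 1))) * r -
      X ^ (2 * (2 * j + 1 + 1)) * (1 - X ^ (2 * S)) * P (2 * j + 1 + S) * Pi S, ?_⟩
    ring

/-! ### the `q`-binomial theorem -/

/-- the `q`-binomial coefficients, base `q²` -/
noncomputable def B : ℕ → ℕ → R
  | _, 0 => 1
  | 0, _ + 1 => 0
  | n + 1, j + 1 => X ^ (2 * (j + 1)) * B n (j + 1) + B n j

theorem B_zero (n : ℕ) : B n 0 = 1 := by cases n <;> rfl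

theorem B_succ (n j : ℕ) : B (n + 1) (j + 1) = X ^ (2 * (j + 1)) * B n (j + 1) + B n j := rfl

theorem B_lt (n j : ℕ) (h : n < j) : B n j = 0 := by
  induction n generalizing j with
  | zero =>
    obtain ⟨k, rfl⟩ := Nat.exists_eq_succ_of_ne_zero (by omega : j ≠ 0)
    rfl
  | succ n ih =>
    obtain ⟨k, rfl⟩ := Nat.exists_eq_succ_of_ne_zero (by omega : j ≠ 0)
    rw [Nat.succ_eq_add_one, B_succ, ih (k + 1) (by omega), ih k (by omega)]
    ring

theorem B_mul (n : ℕ) : ∀ j s : ℕ, j + s = n → B n j = P n * Pi j * Pi s := by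
  induction n with
  | zero =>
    intro j s h
    have hj : j = 0 := by omega
    have hs : s = 0 := by omega
    subst hj hs
    rw [B_zero, P_zero, Pi_zero]
    ring
  | succ n ih =>
    intro j s h
    cases j with
    | zero =>
      have hs : s = n + 1 := by omega
      subst hs
      rw [B_zero, Pi_zero]
      have := P_mul (n + 1)
      linear_combination -this
    | succ j =>
      cases s with
      | zero =>
        have hj : j = n := by omega
        subst hj
        rw [B_succ, B_lt j (j + 1) (by omega), ih j 0 (by omega), Pi_zero]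
        have h1 := P_mul j
        have h2 := P_mul (j + 1)
        linear_combination h1 - h2
      | succ s =>
        rw [B_succ, ih (j + 1) s (by omega), ih j (s + 1) (by omega), P_succ, Pi_succ s,
          Pi_succ j]
        have e : n = j + s + 1 := by omega
        rw [e]
        ring

/-- `(y;q²)_j` -/
noncomputable def poch (y : R) (j : ℕ) : R := ∏ i ∈ range j, (1 - y * X ^ (2 * i))

theorem poch_zero (y : R) : poch y 0 = 1 := by simp [poch]

theorem poch_succ (y : R) (j : ℕ) : poch y (j + 1) = (1 - y) * poch (y * X ^ 2) j := by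
  unfold poch
  rw [prod_range_succ']
  have : ∀ i, y * X ^ (2 * (i + 1)) = y * X ^ 2 * (X : R) ^ (2 * i) := fun i => by ring
  simp only [this]
  ring

/-- `∑_j (-1)^j q^{s(s+1)+2j} [n,j] (y)_j`, `s = n - j` -/
noncomputable def F (n : ℕ) (y : R) : R :=
  ∑ j ∈ range (n + 1), (-1) ^ j * X ^ ((n - j) * (n - j + 1) + 2 * j) * B n j * poch y j

theorem F_rec (n : ℕ) (y : R) :
    F (n + 1) y = X ^ (2 * n + 2) * F n y - X ^ 2 * (1 - y) * F n (y * X ^ 2) := by
  unfold F
  have key : ∀ j ∈ range (n + 1), (-1 : R) ^ (j + 1) *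
      X ^ ((n + 1 - (j + 1)) * (n + 1 - (j + 1) + 1) + 2 * (j + 1)) * B (n + 1) (j + 1) *
        poch y (j + 1) =
      (-1 : R) ^ (j + 1) * X ^ ((n + 1 - (j + 1)) * (n + 1 - (j + 1) + 1) + 2 * (j + 1)) *
        X ^ (2 * (j + 1)) * B n (j + 1) * poch y (j + 1) -
      X ^ 2 * (1 - y) * ((-1) ^ j * X ^ ((n - j) * (n - j + 1) + 2 * j) * B n j *
        poch (y * X ^ 2) j) := by
    intro j hj
    have e : n + 1 - (j + 1) = n - j := by omega
    rw [B_succ, poch_succ, e]
    ring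
  rw [sum_range_succ' (fun j => (-1 : R) ^ j * X ^ ((n + 1 - j) * (n + 1 - j + 1) + 2 * j) *
    B (n + 1) j * poch y j) (n + 1), sum_congr rfl key, sum_sub_distrib, mul_sum, mul_sum]
  have h2 : ∑ j ∈ range (n + 1), ((-1 : R) ^ (j + 1) *
      X ^ ((n + 1 - (j + 1)) * (n + 1 - (j + 1) + 1) + 2 * (j + 1)) *
        X ^ (2 * (j + 1)) * B n (j + 1) * poch y (j + 1)) +
      (-1 : R) ^ 0 * X ^ ((n + 1 - 0) * (n + 1 - 0 + 1) + 2 * 0) * B (n + 1) 0 * poch y 0 =
      ∑ j ∈ range (n + 1), X ^ (2 * n + 2) *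
        ((-1) ^ j * X ^ ((n - j) * (n - j + 1) + 2 * j) * B n j * poch y j) := by
    rw [sum_range_succ, B_lt n (n + 1) (by omega), sum_range_succ' (fun j => X ^ (2 * n + 2) *
        ((-1 : R) ^ j * X ^ ((n - j) * (n - j + 1) + 2 * j) * B n j * poch y j)) n]
    rw [B_zero, B_zero, poch_zero]
    have h3 : ∀ j ∈ range n, ((-1 : R) ^ (j + 1) *
      X ^ ((n + 1 - (j + 1)) * (n + 1 - (j + 1) + 1) + 2 * (j + 1)) *
        X ^ (2 * (j + 1)) * B n (j + 1) * poch y (j + 1)) = X ^ (2 * n + 2) *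
        ((-1 : R) ^ (j + 1) * X ^ ((n - (j + 1)) * (n - (j + 1) + 1) + 2 * (j + 1)) *
          B n (j + 1) * poch y (j + 1)) := by
      intro j hj
      rw [mem_range] at hj
      obtain ⟨s, rfl⟩ : ∃ s, n = j + 1 + s := ⟨n - (j + 1), by omega⟩
      have e1 : j + 1 + s + 1 - (j + 1) = s + 1 := by omega
      have e2 : j + 1 + s - (j + 1) = s := by omega
      rw [e1, e2]
      ring
    rw [sum_congr rfl h3]
    simp only [Nat.sub_zero]
    ring
  linear_combination h2

theorem F_eq (n : ℕ) : ∀ y : R, F n y = X ^ (n * (n + 1)) * y ^ n := by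
  induction n with
  | zero =>
    intro y
    simp [F, B_zero, poch_zero]
  | succ n ih =>
    intro y
    rw [F_rec, ih, ih]
    ring

end Pool.Agent.U171.ToParity
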